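import Mathlib

open Filter Topology Set

namespace Pool.Agent.H.MP_c19a8f_an

def Pf {X : Type} [TopologicalSpace X] (K : Set X) : Prop := K.Nonempty ∧ Preperfect K

def Good {X Y : Type} [TopologicalSpace X] [TopologicalSpace Y] (R : X → Y → Prop)
    (U : Set X) (V : Set Y) : Prop :=
  IsClopen U ∧ IsClopen V ∧ ((U = ∅ ∧ V = ∅) ∨
    ((∃ K ⊆ U, Pf K ∧ ∀ x ∈ K, ∀ y ∈ V, R x y) ∧ (∃ K ⊆ V, Pf K ∧ ∀ y ∈ K, ∀ x ∈ U, R x y)))

def Hy {X Y : Type} [TopologicalSpace X] [TopologicalSpace Y] (R : X → Y → Prop) : Prop :=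
  ∀ U : Set X, IsOpen U → U.Nonempty → ∃ K ⊆ U, Pf K ∧
    ∀ y0, (∀ x ∈ K, R x y0) → ∀ᶠ y in 𝓝 y0, ∀ x ∈ K, R x y

section
variable {X Y : Type} [TopologicalSpace X] [TopologicalSpace Y]

lemma Good.swap {R : X → Y → Prop} {U : Set X} {V : Set Y} (h : Good R U V) :
    Good (fun y x => R x y) V U :=
  ⟨h.2.1, h.1, h.2.2.imp And.symm And.symm⟩

lemma Pf.inter {K U : Set X} (h : Pf K) (hU : IsOpen U) (hn : (K ∩ U).Nonempty) : Pf (K ∩ U) :=
  ⟨hn, by rw [inter_comm]; exact h.2.open_inter hU⟩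

lemma aux [CompactSpace Y] [T2Space Y] [TotallyDisconnectedSpace Y] {R : X → Y → Prop}
    (hR : Hy R) {U C : Set X} {V : Set Y} (hU : IsClopen U) (hV : IsClopen V) (hC : IsClopen C)
    {K : Set X} (hKU : K ⊆ U) (hK : Pf K) (hKR : ∀ x ∈ K, ∀ y ∈ V, R x y)
    {J : Set Y} (hJV : J ⊆ V) (hJ : Pf J) (hJR : ∀ y ∈ J, ∀ x ∈ U, R x y)
    (h1 : (K ∩ C).Nonempty) (h2 : (U ∩ Cᶜ).Nonempty) :
    ∃ D, IsClopen D ∧ Good R (U ∩ C) (V ∩ D) ∧ Good R (U ∩ Cᶜ) (V ∩ Dᶜ) := by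
  obtain ⟨K2, hK2U, hK2, hK2R⟩ := hR _ (hU.inter hC.compl).isOpen h2
  obtain ⟨y2, hy2⟩ := hJ.1
  obtain ⟨y1, hy1, hne⟩ := accPt_iff_nhds.1 (hJ.2 y2 hy2) univ univ_mem
  have ev := (hK2R y2 fun x hx => hJR y2 hy2 x (hK2U hx).1).and
    (isOpen_compl_singleton.mem_nhds (show y2 ∈ ({y1}ᶜ : Set Y) from hne.symm))
  obtain ⟨W, hW, hWo, hW2⟩ := eventually_nhds_iff.1 ev
  obtain ⟨E, hE, hE2, hEW⟩ := compact_exists_isClopen_in_isOpen hWo hW2
  have hy1E : y1 ∈ Eᶜ := fun h => (hW y1 (hEW h)).2 rfl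
  refine ⟨Eᶜ, hE.compl, ⟨hU.inter hC, hV.inter hE.compl, Or.inr ⟨⟨K ∩ C,
    inter_subset_inter_left _ hKU, hK.inter hC.isOpen h1, fun x hx y hy => hKR x hx.1 y hy.1⟩,
    ⟨J ∩ Eᶜ, inter_subset_inter_left _ hJV, hJ.inter hE.compl.isOpen ⟨y1, hy1.2, hy1E⟩,
      fun y hy x hx => hJR y hy.1 x hx.1⟩⟩⟩, ?_⟩
  rw [compl_compl]
  exact ⟨hU.inter hC.compl, hV.inter hE, Or.inr ⟨⟨K2, hK2U, hK2,
    fun x hx y hy => (hW y (hEW hy.2)).1 x hx⟩,
    ⟨J ∩ E, inter_subset_inter_left _ hJV, hJ.inter hE.isOpen ⟨y2, hy2, hE2⟩,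
      fun y hy x hx => hJR y hy.1 x hx.1⟩⟩⟩

lemma split [CompactSpace Y] [T2Space Y] [TotallyDisconnectedSpace Y] {R : X → Y → Prop}
    (hR : Hy R) {U C : Set X} {V : Set Y} (h : Good R U V) (hC : IsClopen C) :
    ∃ D, IsClopen D ∧ Good R (U ∩ C) (V ∩ D) ∧ Good R (U ∩ Cᶜ) (V ∩ Dᶜ) := by
  have e0 : Good R ∅ ∅ := ⟨isClopen_empty, isClopen_empty, Or.inl ⟨rfl, rfl⟩⟩
  by_cases a : U ∩ C = ∅
  · have : U ∩ Cᶜ = U := by
      ext x; constructor
      · exact fun h => h.1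
      · exact fun h => ⟨h, fun hc => (a ▸ (⟨h, hc⟩ : x ∈ U ∩ C) : x ∈ (∅ : Set X))⟩
    exact ⟨∅, isClopen_empty, by rw [a, inter_empty]; exact e0, by
      rw [this, compl_empty, inter_univ]; exact h⟩
  by_cases b : U ∩ Cᶜ = ∅
  · have : U ∩ C = U := by
      ext x; constructor
      · exact fun h => h.1
      · exact fun h => ⟨h, by_contra fun hc => (b ▸ (⟨h, hc⟩ : x ∈ U ∩ Cᶜ) : x ∈ (∅ : Set X))⟩
    exact ⟨univ, isClopen_univ, by rw [this, inter_univ]; exact h, by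
      rw [b, compl_univ, inter_empty]; exact e0⟩
  obtain ⟨hU, hV, h | ⟨⟨K, k1, k2, k3⟩, J, j1, j2, j3⟩⟩ := h
  · exact absurd (by rw [h.1, empty_inter]) a
  obtain ⟨x, hx⟩ := k2.1
  by_cases c : x ∈ C
  · exact aux hR hU hV hC k1 k2 k3 j1 j2 j3 ⟨x, hx, c⟩ (nonempty_iff_ne_empty.2 b)
  · obtain ⟨D, d1, d2, d3⟩ := aux hR hU hV hC.compl k1 k2 k3 j1 j2 j3 ⟨x, hx, c⟩
      (by rw [compl_compl]; exact nonempty_iff_ne_empty.2 a)
    rw [compl_compl] at d3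
    exact ⟨Dᶜ, d1.compl, d3, by rw [compl_compl]; exact d2⟩

end

section
variable {N Z : Type} (root : N) (child : ℕ → N → Prop → N)

noncomputable def path (E : ℕ → N → Set Z) (z : Z) : ℕ → N
  | 0 => root
  | k + 1 => child k (path E z k) (z ∈ E k (path E z k))

def Chain (g : ℕ → N) : Prop := g 0 = root ∧ ∀ k, ∃ b, g (k + 1) = child k (g k) b

def Tr (w : N → Set Z) (E : ℕ → N → Set Z) : Prop :=
  w root = univ ∧ ∀ k g (b : Prop), w (child k g b) = w g ∩ {z | z ∈ E k g ↔ b}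

variable {root child}

lemma path_chain (E : ℕ → N → Set Z) (z : Z) : Chain root child (path root child E z) :=
  ⟨rfl, fun _ => ⟨_, rfl⟩⟩

lemma Tr.mem {w : N → Set Z} {E : ℕ → N → Set Z} (h : Tr root child w E) (z : Z) (k : ℕ) :
    z ∈ w (path root child E z k) := by
  induction k with
  | zero => rw [path, h.1]; trivial
  | succ k ih => rw [path, h.2]; exact ⟨ih, Iff.rfl⟩

lemma Tr.anti {w : N → Set Z} {E : ℕ → N → Set Z} (h : Tr root child w E) {g : ℕ → N}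
    (hg : Chain root child g) (k : ℕ) : w (g (k + 1)) ⊆ w (g k) := by
  obtain ⟨b, hb⟩ := hg.2 k
  rw [hb, h.2]; exact inter_subset_left

lemma Tr.det {w : N → Set Z} {E : ℕ → N → Set Z} (h : Tr root child w E) {g : ℕ → N}
    (hg : Chain root child g) (z : Z) (k : ℕ) (hz : z ∈ w (g k)) :
    path root child E z k = g k := by
  induction k with
  | zero => exact hg.1.symm
  | succ k ih =>
    obtain ⟨b, hb⟩ := hg.2 k
    have := ih (h.anti hg k hz)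
    rw [hb, h.2] at hz
    rw [path, this, hb, propext hz.2]

lemma Tr.ex [TopologicalSpace Z] [CompactSpace Z] {w : N → Set Z} {E : ℕ → N → Set Z}
    (h : Tr root child w E) (hc : ∀ g, IsClopen (w g)) {g : ℕ → N}
    (hg : Chain root child g) (hn : ∀ k, (w (g k)).Nonempty) :
    ∃ z, path root child E z = g := by
  obtain ⟨z, hz⟩ := IsCompact.nonempty_iInter_of_sequence_nonempty_isCompact_isClosed
    (fun k => w (g k)) (h.anti hg) hn (hc _).isClosed.isCompact fun k => (hc _).isClosed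
  exact ⟨z, funext fun k => h.det hg z k (mem_iInter.1 hz k)⟩

lemma Tr.small [TopologicalSpace Z] [CompactSpace Z] [T2Space Z] [TotallyDisconnectedSpace Z]
    {w : N → Set Z} {E : ℕ → N → Set Z} (h : Tr root child w E)
    (hE : ∀ C, IsClopen C → ∃ k, ∀ g, E k g = C) (z : Z) {W : Set Z} (hW : W ∈ 𝓝 z) :
    ∃ k, w (path root child E z k) ⊆ W := by
  obtain ⟨C, hC, h1, h2⟩ := isTopologicalBasis_isClopen.mem_nhds_iff.1 hW
  obtain ⟨k, hk⟩ := hE C hC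
  refine ⟨k + 1, fun y hy => h2 ?_⟩
  rw [path, h.2, hk] at hy
  exact hy.2.2 h1

lemma Tr.inj [TopologicalSpace Z] [CompactSpace Z] [T2Space Z] [TotallyDisconnectedSpace Z]
    {w : N → Set Z} {E : ℕ → N → Set Z} (h : Tr root child w E)
    (hE : ∀ C, IsClopen C → ∃ k, ∀ g, E k g = C) {z z' : Z}
    (e : path root child E z = path root child E z') : z = z' := by
  by_contra ne
  obtain ⟨k, hk⟩ := h.small hE z (isOpen_compl_singleton.mem_nhds (show z ∈ ({z'}ᶜ : Set Z) from ne))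
  exact hk (e ▸ h.mem z' k) rfl

end

lemma enum (X : Type) [TopologicalSpace X] [CompactSpace X] [T2Space X]
    [TotallyDisconnectedSpace X] [SecondCountableTopology X] :
    ∃ c : ℕ → Set X, (∀ j, IsClopen (c j)) ∧ ∀ C, IsClopen C → ∃ j, c j = C := by
  haveI : Countable (TopologicalSpace.Clopens X) :=
    TopologicalSpace.Clopens.countable_iff_secondCountable.2 inferInstance
  obtain ⟨f, hf⟩ := exists_surjective_nat (TopologicalSpace.Clopens X)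
  exact ⟨fun j => f j, fun j => (f j).isClopen, fun C hC =>
    (hf ⟨C, hC⟩).imp fun j hj => by simp only [hj]; rfl⟩

theorem bf {X Y : Type} [TopologicalSpace X] [CompactSpace X] [T2Space X]
    [TotallyDisconnectedSpace X] [SecondCountableTopology X]
    [TopologicalSpace Y] [CompactSpace Y] [T2Space Y]
    [TotallyDisconnectedSpace Y] [SecondCountableTopology Y] (R : X → Y → Prop)
    (h1 : Hy R) (h2 : Hy fun y x => R x y) (h0 : Good R univ univ) 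
    (hc : ∀ x, IsClosed {y | R x y}) : ∃ Φ : X ≃ₜ Y, ∀ x, R x (Φ x) := by
  classical
  obtain ⟨cX, cX1, cX2⟩ := enum X
  obtain ⟨cY, cY1, cY2⟩ := enum Y
  let N := {g : Set X × Set Y // Good R g.1 g.2}
  have st : ∀ (k : ℕ) (g : N), ∃ C D, Good R (g.1.1 ∩ C) (g.1.2 ∩ D) ∧
      Good R (g.1.1 ∩ Cᶜ) (g.1.2 ∩ Dᶜ) ∧ (k % 2 = 0 → C = cX (k / 2)) ∧
      (k % 2 = 1 → D = cY (k / 2)) := by
    intro k g
    by_cases e : k % 2 = 0
    · obtain ⟨D, -, d2, d3⟩ := split h1 g.2 (cX1 (k / 2))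
      exact ⟨_, D, d2, d3, fun _ => rfl, fun h => by omega⟩
    · obtain ⟨C, -, d2, d3⟩ := split h2 g.2.swap (cY1 (k / 2))
      exact ⟨C, _, d2.swap, d3.swap, fun h => absurd h e, fun _ => rfl⟩
  choose C D s1 s2 s3 s4 using st
  let child : ℕ → N → Prop → N := fun k g b =>
    if b then ⟨(g.1.1 ∩ C k g, g.1.2 ∩ D k g), s1 k g⟩
    else ⟨(g.1.1 ∩ (C k g)ᶜ, g.1.2 ∩ (D k g)ᶜ), s2 k g⟩
  let root : N := ⟨(univ, univ), h0⟩
  have tX : Tr root child (fun g => g.1.1) C := ⟨rfl, fun k g b => by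
    by_cases hb : b
    · simp only [child, if_pos hb]; ext; simp [hb]
    · simp only [child, if_neg hb]; ext; simp [hb]⟩
  have tY : Tr root child (fun g => g.1.2) D := ⟨rfl, fun k g b => by
    by_cases hb : b
    · simp only [child, if_pos hb]; ext; simp [hb]
    · simp only [child, if_neg hb]; ext; simp [hb]⟩
  have eX : ∀ U, IsClopen U → ∃ k, ∀ g, C k g = U := fun U hU => by
    obtain ⟨j, hj⟩ := cX2 U hU
    exact ⟨2 * j, fun g => by rw [s3 _ g (by omega), ← hj]; congr 1; omega⟩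
  have eY : ∀ U, IsClopen U → ∃ k, ∀ g, D k g = U := fun U hU => by
    obtain ⟨j, hj⟩ := cY2 U hU
    exact ⟨2 * j + 1, fun g => by rw [s4 _ g (by omega), ← hj]; congr 1; omega⟩
  have n1 : ∀ g : N, g.1.1.Nonempty → ∃ y ∈ g.1.2, ∀ x ∈ g.1.1, R x y := fun g hg => by
    obtain h | ⟨-, J, j1, j2, j3⟩ := g.2.2.2
    · exact absurd h.1 hg.ne_empty
    · obtain ⟨y, hy⟩ := j2.1
      exact ⟨y, j1 hy, j3 y hy⟩
  have n2 : ∀ g : N, g.1.2.Nonempty → g.1.1.Nonempty := fun g hg => by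
    obtain h | ⟨⟨J, j1, j2, -⟩, -⟩ := g.2.2.2
    · exact absurd h.2 hg.ne_empty
    · exact j2.1.mono j1
  choose f hf using fun x => tY.ex (fun g => g.2.2.1) (path_chain C x) fun k =>
    (n1 _ ⟨x, tX.mem x k⟩).imp fun _ h => h.1
  have finj : Function.Injective f := fun x x' e => tX.inj eX (by rw [← hf, ← hf, e])
  have fsurj : Function.Surjective f := fun y => by
    obtain ⟨x, hx⟩ := tX.ex (fun g => g.2.1) (path_chain D y) fun k => n2 _ ⟨y, tY.mem y k⟩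
    exact ⟨x, tY.inj eY (by rw [hf, hx])⟩
  have fc : Continuous f := continuous_iff_continuousAt.2 fun x W hW => by
    obtain ⟨k, hk⟩ := tY.small eY (f x) hW
    show f ⁻¹' W ∈ 𝓝 x
    filter_upwards [(path root child C x k).2.1.isOpen.mem_nhds (tX.mem x k)] with x' hx'
    have := tX.det (path_chain C x) x' k hx'
    refine hk ?_
    rw [hf, ← this, ← hf]
    exact tY.mem _ k
  refine ⟨Continuous.homeoOfEquivCompactToT2 (f := Equiv.ofBijective f ⟨finj, fsurj⟩) fc,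
    fun x => ?_⟩
  show R x (f x)
  by_contra hn
  obtain ⟨k, hk⟩ := tY.small eY (f x) ((hc x).isOpen_compl.mem_nhds hn)
  rw [hf] at hk
  obtain ⟨y, y1, y2⟩ := n1 _ ⟨x, tX.mem x k⟩
  exact hk y1 (y2 x (tX.mem x k))

end Pool.Agent.H.MP_c19a8f_an
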