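import Mathlib

open Filter Topology Set

namespace Pool.Agent.H.MP_c19a8f_an

def Fr (P : Set ℤ) (G R : ℕ) : Prop :=
  ∀ t : ℤ, ∃ u : ℤ, t ≤ u ∧ u + G ≤ t + R ∧ ∀ j, u ≤ j → j < u + G → j ∉ P

variable (ρ : ℕ → ℕ)

def L : ℕ → ℕ
  | 0 => 1
  | k + 1 => (5 + ρ ((2 * 2 ^ (2 * L k) + 1) * L k)) * L k

def s (k : ℕ) : ℕ := 5 + ρ ((2 * 2 ^ (2 * L ρ k) + 1) * L ρ k)

lemma LS (k : ℕ) : L ρ (k + 1) = s ρ k * L ρ k := rfl

lemma s5 (k : ℕ) : 5 ≤ s ρ k := Nat.le_add_right _ _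

lemma Lgt (k : ℕ) : k < L ρ k := by
  induction k with
  | zero => exact one_pos
  | succ k ih => rw [LS]; nlinarith [s5 ρ k]

lemma L0 (k : ℕ) : (0 : ℤ) < L ρ k := by have := Lgt ρ k; omega

lemma LSz (k : ℕ) : (L ρ (k + 1) : ℤ) = s ρ k * L ρ k := by rw [LS]; push_cast; rfl

lemma L5 (k : ℕ) : 5 * (L ρ k : ℤ) ≤ L ρ (k + 1) := by
  rw [LSz]
  have := s5 ρ k
  exact mul_le_mul_of_nonneg_right (by exact_mod_cast this) (L0 ρ k).le

lemma Ldvd {k l : ℕ} (h : k ≤ l) : (L ρ k : ℤ) ∣ L ρ l := by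
  induction h with
  | refl => exact dvd_rfl
  | step _ ih => rw [LSz]; exact ih.mul_left _

def sh {α : Type} (t : ℤ) (x : ℤ → α) : ℤ → α := fun j => x (j + t)

lemma sh_sh {α : Type} (a b : ℤ) (x : ℤ → α) : sh a (sh b x) = sh (a + b) x := by
  funext j; simp only [sh, add_assoc]

lemma sh_zero {α : Type} (x : ℤ → α) : sh 0 x = x := by funext j; simp only [sh, add_zero]

def Wd : ℕ → (ℤ → Bool) → Prop
  | 0, _ => True
  | k + 1, x => (∀ i : ℕ, i < s ρ k → Wd k (sh (i * L ρ k) x)) ∧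
      ∀ u, Wd k u → Wd k (sh (L ρ k) u) → ∃ i : ℕ, i + 2 ≤ s ρ k ∧
        ∀ j : ℤ, 0 ≤ j → j < 2 * L ρ k → x (j + i * L ρ k) = u j

variable {ρ}

lemma loc (k : ℕ) : ∀ x y : ℤ → Bool, (∀ j : ℤ, 0 ≤ j → j < L ρ k → x j = y j) →
    Wd ρ k x → Wd ρ k y := by
  induction k with
  | zero => exact fun _ _ _ _ => trivial
  | succ k ih =>
    intro x y h hx
    have l0 := L0 ρ k
    rw [LSz] at h
    refine ⟨fun i hi => ih _ _ (fun j j0 j1 => h _ (by positivity) ?_) (hx.1 i hi),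
      fun u u1 u2 => ?_⟩
    · have : (i : ℤ) + 1 ≤ s ρ k := by exact_mod_cast hi
      nlinarith
    · obtain ⟨i, hi, e⟩ := hx.2 u u1 u2
      refine ⟨i, hi, fun j j0 j1 => ?_⟩
      rw [← e j j0 j1, h _ (by positivity)]
      have : (i : ℤ) + 2 ≤ s ρ k := by exact_mod_cast hi
      nlinarith

lemma dec (k : ℕ) (j : ℤ) (j0 : 0 ≤ j) (j1 : j < L ρ (k + 1)) :
    ∃ (i : ℕ) (r : ℤ), i < s ρ k ∧ 0 ≤ r ∧ r < L ρ k ∧ j = r + i * L ρ k := by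
  have l0 := L0 ρ k
  obtain ⟨i, hi⟩ := Int.eq_ofNat_of_zero_le (Int.ediv_nonneg j0 l0.le)
  refine ⟨i, j % L ρ k, ?_, Int.emod_nonneg _ l0.ne', Int.emod_lt_of_pos _ l0, ?_⟩
  · rw [LSz] at j1
    have := Int.ediv_lt_of_lt_mul l0 j1
    omega
  · rw [← hi, Int.emod_add_ediv_mul]

lemma down {k l : ℕ} (h : k ≤ l) : ∀ (x : ℤ → Bool) (t : ℤ), Wd ρ l x → (L ρ k : ℤ) ∣ t →
    0 ≤ t → t < L ρ l → Wd ρ k (sh t x) := by
  induction h with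
  | refl =>
    intro x t hx d t0 t1
    rw [Int.eq_zero_of_dvd_of_nonneg_of_lt t0 t1 d, sh_zero]; exact hx
  | @step l h ih =>
    intro x t hx d t0 t1
    obtain ⟨i, r, i1, r0, r1, rfl⟩ := dec l t t0 t1
    rw [← sh_sh]
    exact ih _ _ (hx.1 i i1) ((dvd_add_left ((Ldvd ρ h).mul_left _)).1 d) r0 r1

def Fill (ρ : ℕ → ℕ) (P : Set ℤ) (k : ℕ) : Prop :=
  ∀ (t : ℤ) (c : Bool), ∃ z, Wd ρ k z ∧ ∀ j : ℤ, 0 ≤ j → j < L ρ k → j + t ∈ P → z j ≠ c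

lemma pats (k : ℕ) (f : ℤ → Bool) (hf : Wd ρ k f) : ∃ v : ℕ → ℤ → Bool,
    (∀ m, Wd ρ k (v m) ∧ Wd ρ k (sh (L ρ k) (v m))) ∧
    ∀ u, Wd ρ k u → Wd ρ k (sh (L ρ k) u) → ∃ m < 2 ^ (2 * L ρ k),
      ∀ j : ℤ, 0 ≤ j → j < 2 * L ρ k → v m j = u j := by
  classical
  have l0 := L0 ρ k
  have h0 : ∃ u, Wd ρ k u ∧ Wd ρ k (sh (L ρ k) u) :=
    ⟨fun j => if j < L ρ k then f j else f (j - L ρ k),
      loc k _ _ (fun j _ j1 => by rw [if_pos j1]) hf,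
      loc k _ _ (fun j j0 _ => by
        simp only [sh]; rw [if_neg (by omega), add_sub_cancel_right]) hf⟩
  have h1 : ∀ π : Fin (2 * L ρ k) → Bool, ∃ w, (Wd ρ k w ∧ Wd ρ k (sh (L ρ k) w)) ∧
      ∀ u, Wd ρ k u → Wd ρ k (sh (L ρ k) u) → (fun i : Fin (2 * L ρ k) => u i) = π →
        (fun i : Fin (2 * L ρ k) => w i) = π := fun π => by
    by_cases h : ∃ u, (Wd ρ k u ∧ Wd ρ k (sh (L ρ k) u)) ∧ (fun i : Fin (2 * L ρ k) => u i) = π
    · obtain ⟨u, h1, h2⟩ := h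
      exact ⟨u, h1, fun _ _ _ _ => h2⟩
    · obtain ⟨u, hu⟩ := h0
      exact ⟨u, hu, fun u a b c => absurd ⟨u, ⟨a, b⟩, c⟩ h⟩
  choose w w1 w2 using h1
  let e : (Fin (2 * L ρ k) → Bool) ≃ Fin (2 ^ (2 * L ρ k)) := Fintype.equivFinOfCardEq (by simp)
  refine ⟨fun m => if hm : m < 2 ^ (2 * L ρ k) then w (e.symm ⟨m, hm⟩) else w fun _ => true,
    fun m => by dsimp only; split_ifs <;> exact w1 _, fun u u1 u2 =>
      ⟨e fun i => u i, (e _).2, fun j j0 j1 => ?_⟩⟩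
  dsimp only
  rw [dif_pos (e _).2]
  simp only [Fin.eta, Equiv.symm_apply_apply]
  have := congrFun (w2 _ u u1 u2 rfl) ⟨j.toNat, by omega⟩
  simpa [Int.toNat_of_nonneg j0] using this

variable {P : Set ℤ}

lemma step (hP : ∀ G, Fr P G (ρ G)) {k : ℕ} (hF : Fill ρ P k) (t : ℤ) (c : Bool)
    (x : ℤ → Bool) (a b : ℕ) (hb : b ≤ 5)
    (hx : ∀ i : ℕ, a ≤ i → i < b → Wd ρ k (sh (i * L ρ k) x)) :
    ∃ z, Wd ρ (k + 1) z ∧ ∀ j : ℤ, 0 ≤ j → j < L ρ (k + 1) →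
      ((a : ℤ) * L ρ k ≤ j ∧ j < b * L ρ k → z j = x j) ∧
      (¬ ((a : ℤ) * L ρ k ≤ j ∧ j < b * L ρ k) → j + t ∈ P → z j ≠ c) := by
  classical
  have l0 := L0 ρ k
  choose f f1 f2 using fun t => hF t c
  obtain ⟨v, v1, v2⟩ := pats k (f 0) (f1 0)
  obtain ⟨M, hM⟩ : ∃ M, M = 2 ^ (2 * L ρ k) := ⟨_, rfl⟩
  obtain ⟨u, u1, u2, u3⟩ := hP ((2 * 2 ^ (2 * L ρ k) + 1) * L ρ k) (t + 5 * L ρ k)
  have hs : (s ρ k : ℤ) = 5 + ρ ((2 * 2 ^ (2 * L ρ k) + 1) * L ρ k) := by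
    unfold s; push_cast; rfl
  rw [← hM] at u2 u3 v2 hs
  push_cast at u2 u3
  obtain ⟨i0, i1, i2⟩ : ∃ i0 : ℕ, u ≤ t + i0 * L ρ k ∧ t + i0 * L ρ k ≤ u + L ρ k := by
    obtain ⟨i, hi⟩ := Int.eq_ofNat_of_zero_le (Int.ediv_nonneg (a := u - t) (by omega) l0.le)
    have a1 := Int.emod_add_ediv_mul (u - t) (L ρ k)
    have a2 := Int.emod_nonneg (u - t) l0.ne'
    have a3 := Int.emod_lt_of_pos (u - t) l0
    rw [hi] at a1
    refine ⟨i + 1, ?_, ?_⟩ <;> push_cast <;> linarith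
  have i3 : 5 ≤ i0 := by
    have : (5 : ℤ) ≤ i0 := le_of_mul_le_mul_right (by linarith) l0
    exact_mod_cast this
  have i4 : i0 + 2 * M ≤ s ρ k := by
    have r0 : (0 : ℤ) ≤ ρ ((2 * M + 1) * L ρ k) := Nat.cast_nonneg _
    have : (i0 : ℤ) + 2 * M ≤ s ρ k := le_of_mul_le_mul_right (by rw [hs]; nlinarith) l0
    exact_mod_cast this
  let Z : ℕ → ℤ → Bool := fun i => if a ≤ i ∧ i < b then sh (i * L ρ k) x else
    if i0 ≤ i ∧ i < i0 + 2 * M then sh (((i - i0) % 2 : ℕ) * L ρ k) (v ((i - i0) / 2))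
    else f (i * L ρ k + t)
  have Z1 : ∀ i, Wd ρ k (Z i) := fun i => by
    simp only [Z]
    split_ifs with h1 h2
    · exact hx i h1.1 h1.2
    · rcases Nat.mod_two_eq_zero_or_one (i - i0) with e | e <;> rw [e]
      · simpa [sh_zero] using (v1 _).1
      · simpa using (v1 _).2
    · exact f1 _
  let z : ℤ → Bool := fun j => Z (j / L ρ k).toNat (j % L ρ k)
  have z1 : ∀ (i : ℕ) (j : ℤ), 0 ≤ j → j < L ρ k → z (j + i * L ρ k) = Z i j := fun i j j0 j1 => by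
    simp only [z]
    rw [Int.add_mul_ediv_right _ _ l0.ne', Int.add_mul_emod_self_right,
      Int.ediv_eq_zero_of_lt j0 j1, Int.emod_eq_of_lt j0 j1, zero_add, Int.toNat_natCast]
  refine ⟨z, ⟨fun i _ => loc k _ _ (fun j j0 j1 => (z1 i j j0 j1).symm) (Z1 i),
    fun w w1 w2 => ?_⟩, fun j j0 j1 => ?_⟩
  · obtain ⟨m, m1, m2⟩ := v2 w w1 w2
    refine ⟨i0 + 2 * m, by omega, fun j j0 j1 => ?_⟩
    rw [← m2 j j0 j1]
    by_cases h : j < L ρ k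
    · rw [z1 _ j j0 h]
      simp only [Z]
      rw [if_neg (by omega), if_pos (by omega), show (i0 + 2 * m - i0) % 2 = 0 by omega,
        show (i0 + 2 * m - i0) / 2 = m by omega]
      simp [sh]
    · have e : j + ((i0 + 2 * m : ℕ) : ℤ) * L ρ k
          = (j - L ρ k) + ((i0 + 2 * m + 1 : ℕ) : ℤ) * L ρ k := by push_cast; ring
      rw [e, z1 _ _ (by omega) (by omega)]
      simp only [Z]
      rw [if_neg (by omega), if_pos (by omega), show (i0 + 2 * m + 1 - i0) % 2 = 1 by omega,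
        show (i0 + 2 * m + 1 - i0) / 2 = m by omega]
      simp [sh]
  · obtain ⟨i, r, -, r0, r1, rfl⟩ := dec k j j0 j1
    rw [z1 i r r0 r1]
    have key : ((a : ℤ) * L ρ k ≤ r + i * L ρ k ∧ r + i * L ρ k < b * L ρ k) ↔ (a ≤ i ∧ i < b) := by
      constructor
      · rintro ⟨h1, h2⟩
        have b1 : (a : ℤ) < i + 1 := lt_of_mul_lt_mul_right (by linarith) l0.le
        have b2 : (i : ℤ) < b := lt_of_mul_lt_mul_right (by linarith) l0.le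
        omega
      · rintro ⟨h1, h2⟩
        have b1 : (a : ℤ) ≤ i := by exact_mod_cast h1
        have b2 : (i : ℤ) + 1 ≤ b := by exact_mod_cast h2
        constructor <;> nlinarith
    rw [key]
    refine ⟨fun h => by simp only [Z]; rw [if_pos h]; rfl, fun h hj => ?_⟩
    simp only [Z]
    rw [if_neg h]
    split_ifs with h2
    · have b1 : (i0 : ℤ) ≤ i := by exact_mod_cast h2.1
      have b2 : (i : ℤ) + 1 ≤ i0 + 2 * M := by exact_mod_cast h2.2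
      exact absurd hj (u3 _ (by nlinarith) (by nlinarith))
    · exact f2 _ r r0 r1 (by rwa [← add_assoc])

lemma fill (hP : ∀ G, Fr P G (ρ G)) (k : ℕ) : Fill ρ P k := by
  induction k with
  | zero => exact fun t c => ⟨fun _ => !c, trivial, fun _ _ _ _ => by cases c <;> simp⟩
  | succ k ih =>
    intro t c
    obtain ⟨z, z1, z2⟩ := step hP ih t c (fun _ => true) 0 0 (by omega) (fun i _ h => by omega)
    exact ⟨z, z1, fun j j0 j1 => (z2 j j0 j1).2 (by simp)⟩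

lemma stepA (hP : ∀ G, Fr P G (ρ G)) (k : ℕ) (t : ℤ) (c : Bool)
    (x : ℤ → Bool) (a b : ℕ) (hb : b ≤ 5)
    (hx : ∀ i : ℕ, a ≤ i → i < b → Wd ρ k (sh (i * L ρ k + t) x)) :
    ∃ z, Wd ρ (k + 1) (sh t z) ∧ ∀ j : ℤ, t ≤ j → j < t + L ρ (k + 1) →
      (t + (a : ℤ) * L ρ k ≤ j ∧ j < t + b * L ρ k → z j = x j) ∧
      (¬ (t + (a : ℤ) * L ρ k ≤ j ∧ j < t + b * L ρ k) → j ∈ P → z j ≠ c) := by
  obtain ⟨z, z1, z2⟩ := step hP (fill hP k) t c (sh t x) a b hb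
    (fun i i1 i2 => by rw [sh_sh]; exact hx i i1 i2)
  refine ⟨sh (-t) z, by rwa [sh_sh, add_neg_cancel, sh_zero], fun j j0 j1 => ?_⟩
  obtain ⟨h1, h2⟩ := z2 (j + -t) (by omega) (by omega)
  refine ⟨fun h => (h1 ⟨by omega, by omega⟩).trans (by simp [sh]), fun h hj =>
    h2 (fun h' => h ⟨by omega, by omega⟩) (by simpa using hj)⟩

end Pool.Agent.H.MP_c19a8f_an
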