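import Mathlib
import Pool.Agent.H.MP_c19a8f_an.A
import Pool.Agent.H.MP_c19a8f_an.B

open Filter Topology Set

namespace Pool.Agent.H.MP_c19a8f_an

abbrev Am : Type := ℤ → Bool × (ℕ → Bool)

def xs (ξ : Am) : ℤ → Bool := fun j => (ξ j).1

def Ok (ρ : ℕ → ℕ) (ξ : Am) : Prop := ∀ (k : ℕ) (a : ℤ),
  (∃ t, a ≤ t ∧ t < a + L ρ k ∧ (ξ t).2 k = true) ∧
  ((ξ a).2 k = true → (∀ t, (ξ t).2 k = true ↔ (L ρ k : ℤ) ∣ t - a) ∧ Wd ρ k (sh a (xs ξ))) ∧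
  ((ξ a).2 (k + 1) = true → (ξ a).2 k = true)

variable {ρ : ℕ → ℕ} {P : Set ℤ}

lemma Ok.sh {ξ : Am} (h : Ok ρ ξ) (n : ℤ) : Ok ρ (sh n ξ) := fun k a => by
  obtain ⟨⟨t, t0, t1, t2⟩, h2, h3⟩ := h k (a + n)
  refine ⟨⟨t - n, by omega, by omega, by simpa [MP_c19a8f_an.sh] using t2⟩, fun e => ⟨fun t => ?_, ?_⟩,
    h3⟩
  · have := (h2 e).1 (t + n)
    rwa [add_sub_add_right_eq_sub] at this
  · have := (h2 e).2
    rwa [← sh_sh] at this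

lemma Ok.low {ξ : Am} (h : Ok ρ ξ) {a : ℤ} {k l : ℕ} (hk : k ≤ l) (e : (ξ a).2 l = true) :
    (ξ a).2 k = true := by
  induction hk with
  | refl => exact e
  | step _ ih => exact ih ((h _ a).2.2 e)

lemma lim (hP : ∀ G, Fr P G (ρ G)) (k0 : ℕ) (τ : ℤ) (z : ℤ → Bool) (c : Bool)
    (hz : Wd ρ k0 (sh τ z)) (t0 : τ ≤ 0) (t1 : 0 < τ + L ρ k0) :
    ∃ ξ, Ok ρ ξ ∧ (∀ j, τ ≤ j ∧ j < τ + L ρ k0 → (ξ j).1 = z j) ∧
      (∀ j, ¬ (τ ≤ j ∧ j < τ + L ρ k0) → j ∈ P → (ξ j).1 ≠ c) ∧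
      ∀ k ≤ k0, ∀ t, (ξ t).2 k = true ↔ (L ρ k : ℤ) ∣ t - τ := by
  classical
  let T : ℕ → ℤ := fun i => Nat.rec τ (fun i t => t - L ρ (k0 + i)) i
  have TS : ∀ i, T (i + 1) = T i - L ρ (k0 + i) := fun _ => rfl
  have st : ∀ (i : ℕ) (w : {w // Wd ρ (k0 + i) (sh (T i) w)}),
      ∃ w' : {w // Wd ρ (k0 + (i + 1)) (sh (T (i + 1)) w)},
      ∀ j : ℤ, T (i + 1) ≤ j → j < T (i + 1) + L ρ (k0 + (i + 1)) →
      (T i ≤ j ∧ j < T i + L ρ (k0 + i) → w'.1 j = w.1 j) ∧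
      (¬ (T i ≤ j ∧ j < T i + L ρ (k0 + i)) → j ∈ P → w'.1 j ≠ c) := fun i w => by
    obtain ⟨y, y1, y2⟩ := stepA hP (k0 + i) (T (i + 1)) c w.1 1 2 (by omega) fun m m1 m2 => by
      rw [show m = 1 by omega, TS]
      simpa using w.2
    refine ⟨⟨y, y1⟩, fun j j0 j1 => ?_⟩
    have := y2 j j0 j1
    rw [TS] at this
    push_cast at this
    exact ⟨fun h => this.1 ⟨by omega, by omega⟩, fun h => this.2 fun h' =>
      h ⟨by omega, by omega⟩⟩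
  choose F hF using st
  let w : ∀ i : ℕ, {w // Wd ρ (k0 + i) (sh (T i) w)} := fun i => Nat.rec ⟨z, hz⟩ F i
  have wS : ∀ i, w (i + 1) = F i (w i) := fun _ => rfl
  let J : ℕ → ℤ → Prop := fun i j => T i ≤ j ∧ j < T i + L ρ (k0 + i)
  have J1 : ∀ i, T (i + 1) + 1 ≤ T i ∧
      T i + L ρ (k0 + i) + 1 ≤ T (i + 1) + L ρ (k0 + (i + 1)) := fun i => by
    have := L5 ρ (k0 + i)
    have := L0 ρ (k0 + i)
    rw [TS, ← add_assoc]
    omega
  have J2 : ∀ i : ℕ, T i ≤ -i ∧ i < T i + L ρ (k0 + i) := fun i => by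
    induction i with
    | zero => exact ⟨t0, t1⟩
    | succ i ih => have := J1 i; push_cast; omega
  have J3 : ∀ i i', i ≤ i' → ∀ j, J i j → J i' j ∧ (w i').1 j = (w i).1 j := fun i i' h j hj => by
    induction h with
    | refl => exact ⟨hj, rfl⟩
    | @step m _ ih =>
      have := J1 m
      have a : J (m + 1) j := ⟨by have := ih.1.1; omega, by have := ih.1.2; omega⟩
      exact ⟨a, by rw [wS, (hF m (w m) j a.1 a.2).1 ih.1, ih.2]⟩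
  have J4 : ∀ j : ℤ, J j.natAbs j := fun j => by
    have := J2 j.natAbs
    exact ⟨by omega, by omega⟩
  let x : ℤ → Bool := fun j => (w j.natAbs).1 j
  have x1 : ∀ i j, J i j → x j = (w i).1 j := fun i j hj => by
    rcases le_total i j.natAbs with h | h
    · exact (J3 _ _ h j hj).2
    · exact (J3 _ _ h j (J4 j)).2.symm
  have Td : ∀ k i i', k ≤ k0 + i → i ≤ i' → (L ρ k : ℤ) ∣ T i' - T i := fun k i i' hk h => by
    induction h with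
    | refl => simp
    | @step m hm ih =>
      have hm' : i ≤ m := hm
      rw [TS, sub_right_comm]
      exact ih.sub (Ldvd ρ (by omega))
  have Td2 : ∀ k i t, k ≤ k0 + i → ((L ρ k : ℤ) ∣ t - T k ↔ (L ρ k : ℤ) ∣ t - T i) :=
    fun k i t hk => by
      have : (L ρ k : ℤ) ∣ T i - T k := by
        rcases le_total i k with h | h
        · exact dvd_sub_comm.1 (Td k i k hk h)
        · exact Td k k i (by omega) h
      rw [show t - T k = t - T i + (T i - T k) by ring]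
      exact dvd_add_left this
  refine ⟨fun j => (x j, fun k => decide ((L ρ k : ℤ) ∣ j - T k)), fun k a => ⟨?_, ?_, ?_⟩,
    fun j hj => x1 0 j hj, fun j hj hp => ?_, fun k hk t => ?_⟩
  · have l0 := L0 ρ k
    refine ⟨a + (T k - a) % L ρ k, by have := Int.emod_nonneg (T k - a) l0.ne'; omega,
      by have := Int.emod_lt_of_pos (T k - a) l0; omega, decide_eq_true ?_⟩
    refine ⟨-((T k - a) / L ρ k), ?_⟩
    have := Int.emod_add_mul_ediv (T k - a) (L ρ k)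
    linarith
  · intro e
    have e' := of_decide_eq_true e
    refine ⟨fun t => ?_, ?_⟩
    · simp only [decide_eq_true_eq]
      rw [show t - T k = t - a + (a - T k) by ring]
      exact dvd_add_left e'
    · obtain ⟨i, hi⟩ : ∃ i, i = k + a.natAbs := ⟨_, rfl⟩
      have a1 := (J3 _ i (by omega) a (J4 a)).1
      have a2 : Wd ρ (k0 + i) (sh (T i) x) :=
        loc _ _ _ (fun j j0 j1 => (x1 i _ ⟨by omega, by omega⟩).symm) (w i).2
      have := down (k := k) (by omega) _ (a - T i) a2 ((Td2 k i a (by omega)).1 e')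
        (by have := a1.1; omega) (by have := a1.2; omega)
      rwa [sh_sh, sub_add_cancel] at this
  · intro e
    exact decide_eq_true ((Td2 k (k + 1) a (by omega)).2
      ((Ldvd ρ (Nat.le_succ k)).trans (of_decide_eq_true e)))
  · have : ∀ i, J i j → (w i).1 j ≠ c := fun i => by
      induction i with
      | zero => exact fun h => absurd h hj
      | succ i ih =>
        intro h
        by_cases h' : J i j
        · rw [(J3 i _ (Nat.le_succ i) j h').2]; exact ih h'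
        · exact (hF i (w i) j h.1 h.2).2 h' hp
    exact this _ (J4 j)
  · simp only [decide_eq_true_eq]
    exact Td2 k 0 t hk

def Ag (r : ℕ) (ξ η : Am) : Prop :=
  ∀ j : ℤ, |j| ≤ r → (ξ j).1 = (η j).1 ∧ ∀ k ≤ r, (ξ j).2 k = (η j).2 k

lemma ext (hP : ∀ G, Fr P G (ρ G)) {η : Am} (h : Ok ρ η) (r : ℕ) (c : Bool) :
    ∃ ξ, Ok ρ ξ ∧ ξ ≠ η ∧ Ag r ξ η ∧ ∃ R : ℕ, ∀ j ∈ P,
      (|j| ≤ R ∧ (ξ j).1 = (η j).1) ∨ (ξ j).1 ≠ c := by
  have l0 := L0 ρ r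
  have l1 := Lgt ρ r
  have l5 := L5 ρ r
  obtain ⟨⟨t0, a0, a1, a2⟩, -⟩ := h r (1 - L ρ r)
  have key : ∀ δ : ℕ, 1 ≤ δ → δ ≤ 2 → ∃ ξ, Ok ρ ξ ∧ (ξ (t0 - (δ + 1) * L ρ r)).2 (r + 1) = true ∧
      Ag r ξ η ∧ ∃ R : ℕ, ∀ j ∈ P, (|j| ≤ R ∧ (ξ j).1 = (η j).1) ∨ (ξ j).1 ≠ c := by
    intro δ d1 d2
    have d1' : (1 : ℤ) ≤ δ := by exact_mod_cast d1
    have d2' : (δ : ℤ) ≤ 2 := by exact_mod_cast d2
    obtain ⟨z, z1, z2⟩ := stepA hP r (t0 - (δ + 1) * L ρ r) c (xs η) δ (δ + 3) (by omega)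
      fun i _ _ => ((h r _).2.1 ((((h r t0).2.1 a2).1 _).2 ⟨i - (δ + 1), by ring⟩)).2
    obtain ⟨ξ, x1, x2, x3, x4⟩ := lim hP (r + 1) _ z c z1 (by nlinarith) (by nlinarith)
    have e1 : t0 - (δ + 1) * L ρ r + δ * L ρ r = t0 - L ρ r := by ring
    have e2 : t0 - (δ + 1) * L ρ r + ((δ + 3 : ℕ) : ℤ) * L ρ r = t0 + 2 * L ρ r := by
      push_cast; ring
    rw [e1, e2] at z2
    have b1 : t0 - (δ + 1) * L ρ r ≤ t0 - L ρ r := by nlinarith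
    have b2 : t0 + 2 * L ρ r ≤ t0 - (δ + 1) * L ρ r + L ρ (r + 1) := by nlinarith
    have ag : ∀ j, t0 - L ρ r ≤ j ∧ j < t0 + 2 * L ρ r → (ξ j).1 = (η j).1 := fun j hj =>
      (x2 j ⟨by omega, by omega⟩).trans ((z2 j (by omega) (by omega)).1 hj)
    refine ⟨ξ, x1, (x4 _ le_rfl _).2 (by simp), fun j hj => ⟨ag j ?_, fun k hk => ?_⟩,
      ⟨2 * L ρ r, fun j hj => ?_⟩⟩
    · rw [abs_le] at hj; omega
    · rw [Bool.eq_iff_iff, x4 k (by omega), ((h k t0).2.1 (h.low hk a2)).1,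
        show j - (t0 - (δ + 1) * L ρ r) = j - t0 + (δ + 1) * L ρ r by ring]
      exact dvd_add_left ((Ldvd ρ hk).mul_left _)
    · by_cases c1 : t0 - L ρ r ≤ j ∧ j < t0 + 2 * L ρ r
      · exact Or.inl ⟨by rw [abs_le]; push_cast; omega, ag j c1⟩
      · right
        by_cases c2 : t0 - (δ + 1) * L ρ r ≤ j ∧ j < t0 - (δ + 1) * L ρ r + L ρ (r + 1)
        · rw [x2 j c2]; exact (z2 j c2.1 c2.2).2 c1 hj
        · exact x3 j c2 hj
  obtain ⟨ξ, x1, x2, x3⟩ := key 1 le_rfl (by omega)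
  obtain ⟨ζ, y1, y2, y3⟩ := key 2 (by omega) le_rfl
  by_cases e : ξ = η
  · refine ⟨ζ, y1, fun e' => ?_, y3⟩
    rw [e] at x2
    rw [e'] at y2
    have := (((h (r + 1) _).2.1 y2).1 _).1 x2
    have := Int.le_of_dvd (by push_cast; omega) this
    push_cast at this
    omega
  · exact ⟨ξ, x1, e, x3⟩

lemma mini {ξ η : Am} (h : Ok ρ ξ) (h' : Ok ρ η) (r : ℕ) : ∃ n : ℤ, Ag r (sh n ξ) η := by
  obtain ⟨K, hK⟩ : ∃ K, K = 2 * r := ⟨_, rfl⟩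
  have l0 := L0 ρ K
  have l1 := Lgt ρ K
  obtain ⟨⟨t0, a0, a1, a2⟩, -⟩ := h' K (1 - r - L ρ K)
  obtain ⟨⟨t1, -, -, b2⟩, -⟩ := h (K + 1) 0
  obtain ⟨i, -, hi⟩ := ((h _ t1).2.1 b2).2.2 (sh t0 (xs η)) ((h' K t0).2.1 a2).2 (by
    rw [sh_sh]
    exact ((h' K _).2.1 ((((h' K t0).2.1 a2).1 _).2 (by simp))).2)
  refine ⟨i * L ρ K + t1 - t0, fun j hj => ⟨?_, fun k hk => ?_⟩⟩
  · rw [abs_le] at hj
    have := hi (j - t0) (by omega) (by omega)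
    simp only [sh, xs, sub_add_cancel] at this ⊢
    rw [← this]; congr 2; ring
  · simp only [sh]
    rw [Bool.eq_iff_iff, ((h k t1).2.1 (h.low (by omega) b2)).1,
      ((h' k t0).2.1 (h'.low (show k ≤ K by omega) a2)).1,
      show j + (i * L ρ K + t1 - t0) - t1 = j - t0 + i * L ρ K by ring]
    exact dvd_add_left ((Ldvd ρ (by omega)).mul_left _)

lemma tend {f : ℕ → Am} {η : Am} (h : ∀ r, Ag r (f r) η) : Tendsto f atTop (𝓝 η) := by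
  refine tendsto_pi_nhds.2 fun j => Tendsto.prodMk_nhds ?_ (tendsto_pi_nhds.2 fun k => ?_)
  · refine tendsto_const_nhds.congr' ?_
    filter_upwards [eventually_ge_atTop j.natAbs] with r hr
    exact (h r j (by rw [abs_le]; omega)).1.symm
  · refine tendsto_const_nhds.congr' ?_
    filter_upwards [eventually_ge_atTop j.natAbs, eventually_ge_atTop k] with r hr hk
    exact ((h r j (by rw [abs_le]; omega)).2 k hk).symm

lemma ev1 (ξ : Am) (j : ℤ) : ∀ᶠ η in 𝓝 ξ, (η j).1 = (ξ j).1 :=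
  (by fun_prop : Continuous fun η : Am => (η j).1).continuousAt.eventually
    (p := fun x => x = (ξ j).1) (by simp)

lemma ev2 (ξ : Am) (j : ℤ) (k : ℕ) : ∀ᶠ η in 𝓝 ξ, (η j).2 k = (ξ j).2 k :=
  (by fun_prop : Continuous fun η : Am => (η j).2 k).continuousAt.eventually
    (p := fun x => x = (ξ j).2 k) (by simp)

lemma closed (ρ : ℕ → ℕ) : IsClosed {ξ | Ok ρ ξ} := by
  refine isClosed_iff_frequently.2 fun ξ hξ k a => ?_
  have e1 : ∀ᶠ η in 𝓝 ξ, ∀ j ∈ Ico a (a + L ρ k), (η j).1 = (ξ j).1 ∧ (η j).2 k = (ξ j).2 k :=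
    (finite_Ico _ _).eventually_all.2 fun j _ => (ev1 ξ j).and (ev2 ξ j k)
  have l0 := L0 ρ k
  obtain ⟨η, h, b1, b2⟩ := (hξ.and_eventually (e1.and (ev2 ξ a (k + 1)))).exists
  have b3 := (b1 a ⟨le_rfl, by omega⟩).2
  obtain ⟨⟨t, t0, t1, t2⟩, h2, h3⟩ := h k a
  refine ⟨⟨t, t0, t1, by rw [← (b1 t ⟨t0, t1⟩).2, t2]⟩, fun e => ⟨fun t => ?_,
    loc k _ _ (fun j j0 j1 => (b1 _ ⟨by omega, by omega⟩).1) (h2 (b3.trans e)).2⟩,
    fun e => b3.symm.trans (h3 (b2.trans e))⟩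
  obtain ⟨ζ, g, c1, c2⟩ := (hξ.and_eventually ((ev2 ξ a k).and (ev2 ξ t k))).exists
  rw [← c2]
  exact ((g k a).2.1 (c1.trans e)).1 t

abbrev X (ρ : ℕ → ℕ) : Type := {ξ // Ok ρ ξ}

instance : CompactSpace (X ρ) := isCompact_iff_compactSpace.1 (closed ρ).isCompact

def act (n : ℤ) (ξ : X ρ) : X ρ := ⟨sh n ξ.1, ξ.2.sh n⟩

lemma act_cont (n : ℤ) : Continuous (act (ρ := ρ) n) :=
  Continuous.subtype_mk (f := fun ξ : X ρ => sh n ξ.1)
    (continuous_pi fun j => (continuous_apply (j + n)).comp continuous_subtype_val) _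

def T (ρ : ℕ → ℕ) : X ρ ≃ₜ X ρ where
  toFun := act 1
  invFun := act (-1)
  left_inv ξ := Subtype.ext (by simp [act, sh_sh, sh_zero])
  right_inv ξ := Subtype.ext (by simp [act, sh_sh, sh_zero])
  continuous_toFun := act_cont _
  continuous_invFun := act_cont _

lemma T_pow (n : ℤ) (ξ : X ρ) : (T ρ ^ n) ξ = act n ξ := by
  induction n using Int.induction_on generalizing ξ with
  | zero => exact Subtype.ext (sh_zero _).symm
  | succ n ih =>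
    rw [zpow_add_one, Homeomorph.mul_apply, ih]
    exact Subtype.ext (sh_sh _ _ _)
  | pred n ih =>
    rw [zpow_sub_one, Homeomorph.mul_apply, ih]
    exact Subtype.ext (sh_sh _ _ _)

lemma dense (ξ : X ρ) : Dense (range fun n : ℤ => (T ρ ^ n) ξ) := fun η => by
  choose n hn using mini ξ.2 η.2
  exact mem_closure_of_tendsto (b := atTop) (f := fun r => act (n r) ξ)
    (tendsto_subtype_rng.2 (tend hn)) (Eventually.of_forall fun r => ⟨n r, T_pow _ _⟩)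

lemma ne (hP : ∀ G, Fr P G (ρ G)) : Nonempty (X ρ) := by
  obtain ⟨ξ, h, -⟩ := lim hP 0 0 (fun _ => true) true trivial le_rfl (by simpa using L0 ρ 0)
  exact ⟨⟨ξ, h⟩⟩

def A (a : ℤ → ℤ) (ξ : X ρ) : Set ℤ := {n | (ξ.1 (a n)).1 = (ξ.1 0).1}

lemma A_ev (a : ℤ → ℤ) (n : ℤ) (ξ : X ρ) : ∀ᶠ η in 𝓝 ξ, n ∈ A a η ↔ n ∈ A a ξ :=
  (continuous_subtype_val.continuousAt (x := ξ)).eventually
    (p := fun η : Am => (η (a n)).1 = (η 0).1 ↔ (ξ.1 (a n)).1 = (ξ.1 0).1)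
    (((ev1 ξ.1 (a n)).and (ev1 ξ.1 0)).mono fun η h => by rw [h.1, h.2])

lemma propD (a : ℤ → ℤ) (hP : ∀ G, Fr (range a) G (ρ G)) (ha : ∀ R : ℕ, {n | |a n| ≤ R}.Finite)
    (U : Set (X ρ)) (hU : IsOpen U) (hn : U.Nonempty) :
    ∃ F : Set ℤ, F.Finite ∧ ∃ K ⊆ U, Pf K ∧ ∀ ξ ∈ K, A a ξ ⊆ F := by
  have key : ∀ η : X ρ, ∃ f : ℕ → X ρ, Tendsto f atTop (𝓝 η) ∧ ∀ r, f r ≠ η ∧
      ∃ R : ℕ, ∀ n ∈ A a (f r), |a n| ≤ R ∧ n ∈ A a η := fun η => by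
    choose f f1 f2 f3 f4 using fun r => ext hP η.2 r (η.1 0).1
    refine ⟨fun r => ⟨f r, f1 r⟩, tendsto_subtype_rng.2 (tend f3), fun r =>
      ⟨fun e => f2 r (congrArg Subtype.val e), (f4 r).imp fun R hR n hn => ?_⟩⟩
    have e0 := (f3 r 0 (by simp)).1
    have hn' : (f r (a n)).1 = (f r 0).1 := hn
    rcases hR (a n) ⟨n, rfl⟩ with h | h
    · exact ⟨h.1, h.2.symm.trans (hn'.trans e0)⟩
    · exact absurd (hn'.trans e0) h
  obtain ⟨η, hη⟩ := hn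
  obtain ⟨f, f1, f2⟩ := key η
  obtain ⟨r, hr⟩ := (f1.eventually (hU.mem_nhds hη)).exists
  obtain ⟨-, R, hR⟩ := f2 r
  refine ⟨_, ha R, U ∩ {ξ | A a ξ ⊆ {n | |a n| ≤ R}}, inter_subset_left,
    ⟨⟨f r, hr, fun n hn => (hR n hn).1⟩, fun ζ hζ => accPt_iff_nhds.2 fun V hV => ?_⟩,
    fun ξ hξ => hξ.2⟩
  obtain ⟨g, g1, g2⟩ := key ζ
  obtain ⟨m, m1, m2⟩ := ((g1.eventually hV).and (g1.eventually (hU.mem_nhds hζ.1))).exists
  obtain ⟨m3, R', hR'⟩ := g2 m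
  exact ⟨g m, ⟨m1, m2, fun n hn => hζ.2 (hR' n hn).2⟩, m3⟩

end Pool.Agent.H.MP_c19a8f_an
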