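import Mathlib
import Pool.Agent.H.MP_c19a8f_an.C

open Filter Topology Set Polynomial

namespace Pool.Agent.H.MP_c19a8f_an

lemma Fr.union {P Q : Set ℤ} {G R R' : ℕ} (h : Fr P R' R) (h' : Fr Q G R') : Fr (P ∪ Q) G R :=
  fun t => by
    obtain ⟨u, u1, u2, u3⟩ := h t
    obtain ⟨v, v1, v2, v3⟩ := h' u
    exact ⟨v, by omega, by omega, fun j j0 j1 hj =>
      hj.elim (u3 j (by omega) (by omega)) (v3 j j0 j1)⟩

lemma Fr.mono {P Q : Set ℤ} {G R : ℕ} (h : Fr P G R) (h' : Q ⊆ P) : Fr Q G R := fun t =>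
  (h t).imp fun _ hu => ⟨hu.1, hu.2.1, fun j j0 j1 hj => hu.2.2 j j0 j1 (h' hj)⟩

lemma fr_sep {P : Set ℤ} {G : ℕ} (h : ∀ x ∈ P, ∀ y ∈ P, x < y → x + 2 * G ≤ y) :
    Fr P G (2 * G) := fun t => by
  by_cases c : ∃ x ∈ P, t ≤ x ∧ x < t + G
  · obtain ⟨x, x1, x2, x3⟩ := c
    exact ⟨t + G, by omega, by push_cast; omega, fun j j0 j1 hj => by
      have := h x x1 j hj (by omega); omega⟩
  · exact ⟨t, le_rfl, by push_cast; omega, fun j j0 j1 hj => c ⟨j, hj, j0, j1⟩⟩

lemma fr_fin {P : Set ℤ} (h : P.Finite) : ∀ G, ∃ R, Fr P G R := by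
  induction P, h using Set.Finite.induction_on with
  | empty => exact fun G => ⟨G, fun t => ⟨t, le_rfl, le_rfl, fun _ _ _ h => h⟩⟩
  | @insert a s _ _ ih =>
    intro G
    obtain ⟨R, hR⟩ := ih (2 * G)
    refine ⟨R, (hR.union (fr_sep (P := {a}) fun x hx y hy h => ?_)).mono
      (by rw [insert_eq, union_comm])⟩
    rw [hx, hy] at h; exact absurd h (lt_irrefl _)

lemma steps (f : ℕ → ℤ) (c : ℤ) (hc : 0 ≤ c) (N : ℕ) (h : ∀ n ≥ N, c ≤ f (n + 1) - f n)
    {m n : ℕ} (hm : N ≤ m) (hn : m < n) : f m + c ≤ f n := by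
  induction hn with
  | refl => have := h m hm; simp only [Nat.succ_eq_add_one]; omega
  | @step n hn ih =>
    have hn' : m + 1 ≤ n := hn
    have := h n (by omega)
    simp only [Nat.succ_eq_add_one]
    omega

lemma fr_seq (f : ℕ → ℤ) (h : (∀ c : ℤ, ∀ᶠ n in atTop, c ≤ f (n + 1) - f n) ∨
    ∀ c : ℤ, ∀ᶠ n in atTop, c ≤ f n - f (n + 1)) (G : ℕ) : ∃ R, Fr (range f) G R := by
  have : ∃ N, ∀ x ∈ f '' Ici N, ∀ y ∈ f '' Ici N, x < y → x + 2 * G ≤ y := by
    rcases h with h | h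
    · obtain ⟨N, hN⟩ := eventually_atTop.1 (h (2 * G))
      refine ⟨N, ?_⟩
      rintro _ ⟨m, hm, rfl⟩ _ ⟨n, hn, rfl⟩ e
      rcases lt_trichotomy m n with a | a | a
      · exact steps f _ (by positivity) N hN hm a
      · rw [a] at e; exact absurd e (lt_irrefl _)
      · have := steps f _ (by positivity) N hN hn a; omega
    · obtain ⟨N, hN⟩ := eventually_atTop.1 (h (2 * G))
      refine ⟨N, ?_⟩
      have st := fun m n => steps (fun n => -f n) (2 * G) (by positivity) N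
        (fun n hn => by have := hN n hn; omega) (m := m) (n := n)
      rintro _ ⟨m, hm, rfl⟩ _ ⟨n, hn, rfl⟩ e
      rcases lt_trichotomy m n with a | a | a
      · have := st m n hm a; omega
      · rw [a] at e; exact absurd e (lt_irrefl _)
      · have := st n m hn a; omega
  obtain ⟨N, hN⟩ := this
  obtain ⟨R, hR⟩ := fr_fin ((finite_Iio N).image f) (2 * G)
  refine ⟨R, (hR.union (fr_sep hN)).mono ?_⟩
  rintro _ ⟨n, rfl⟩
  rcases lt_or_ge n N with a | a
  exacts [Or.inl ⟨n, a, rfl⟩, Or.inr ⟨n, a, rfl⟩]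

lemma fr_nat (p : ℤ[X]) (hp : 2 ≤ p.natDegree) (G : ℕ) :
    ∃ R, Fr (range fun n : ℕ => p.eval (n : ℤ)) G R := by
  refine fr_seq _ ?_ G
  obtain ⟨D, hD⟩ : ∃ D, D = p.comp (Polynomial.X + 1) - p := ⟨_, rfl⟩
  have e : ∀ n : ℕ, p.eval ((n + 1 : ℕ) : ℤ) - p.eval (n : ℤ) = D.eval (n : ℤ) := fun n => by
    simp [hD, eval_comp]
  have d : 0 < D.natDegree := by
    by_contra h
    have h0 := eq_C_of_natDegree_eq_zero (p := D) (by omega)
    have h1 : ∀ n : ℕ, p.eval (n : ℤ) = D.coeff 0 * n + p.eval 0 := fun n => by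
      induction n with
      | zero => simp
      | succ n ih =>
        have := e n
        rw [h0, eval_C, ih] at this
        rw [Nat.cast_succ n] at this ⊢
        linarith
    have h2 : p = C (D.coeff 0) * Polynomial.X + C (p.eval 0) :=
      eq_of_infinite_eval_eq _ _ ((infinite_range_of_injective
        (Nat.cast_injective (R := ℤ))).mono (by
          rintro _ ⟨n, rfl⟩
          simp only [mem_setOf_eq, eval_add, eval_mul, eval_C, eval_X]
          exact h1 n))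
    have := natDegree_linear_le (a := D.coeff 0) (b := p.eval 0)
    rw [← h2] at this
    omega
  have d' : 0 < (D.map (Int.castRingHom ℝ)).degree := by
    rw [degree_map_eq_of_injective Int.cast_injective]
    exact natDegree_pos_iff_degree_pos.1 d
  have e' : ∀ n : ℕ, (D.map (Int.castRingHom ℝ)).eval (n : ℝ) = ((D.eval (n : ℤ) : ℤ) : ℝ) :=
    fun n => by
      have := eval_intCast_map (Int.castRingHom ℝ) D n
      simpa using this
  rcases le_total 0 (D.map (Int.castRingHom ℝ)).leadingCoeff with h | h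
  · refine Or.inl fun c => ?_
    have := (tendsto_atTop_of_leadingCoeff_nonneg _ d' h).comp tendsto_natCast_atTop_atTop
    filter_upwards [this.eventually_ge_atTop c] with n hn
    rw [Function.comp, e'] at hn
    rw [e]; exact_mod_cast hn
  · refine Or.inr fun c => ?_
    have := (tendsto_atBot_of_leadingCoeff_nonpos _ d' h).comp tendsto_natCast_atTop_atTop
    filter_upwards [this.eventually_le_atBot (-c)] with n hn
    rw [Function.comp, e'] at hn
    have : D.eval (n : ℤ) ≤ -c := by exact_mod_cast hn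
    have := e n
    omega

lemma fr_poly (p : ℤ[X]) (hp : 2 ≤ p.natDegree) (G : ℕ) :
    ∃ R, Fr (range fun n : ℤ => p.eval n) G R := by
  obtain ⟨R', h'⟩ := fr_nat p hp G
  obtain ⟨R, h⟩ := fr_nat (p.comp (-Polynomial.X)) (by simpa [natDegree_comp] using hp) R'
  refine ⟨R, (h.union h').mono ?_⟩
  rintro _ ⟨n, rfl⟩
  obtain ⟨m, rfl | rfl⟩ := n.eq_nat_or_neg
  · exact Or.inr ⟨m, rfl⟩
  · exact Or.inl ⟨m, by simp [eval_comp]⟩

lemma fin_poly (p : ℤ[X]) (hp : 2 ≤ p.natDegree) (R : ℕ) : {n : ℤ | |p.eval n| ≤ R}.Finite := by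
  refine ((finite_Icc (-R : ℤ) R).biUnion (t := fun v => {n | p.eval n = v}) fun v _ => ?_).subset
    fun n hn => mem_biUnion (abs_le.1 hn) rfl
  by_contra h
  have := eq_of_infinite_eval_eq p (C v) (by simpa using h)
  rw [this, natDegree_C] at hp
  omega

instance (ρ : ℕ → ℕ) : SecondCountableTopology (X ρ) :=
  TopologicalSpace.Subtype.secondCountableTopology _

theorem main (a b : ℤ → ℤ) (ρ σ : ℕ → ℕ) (ha : ∀ G, Fr (range a) G (ρ G))
    (hb : ∀ G, Fr (range b) G (σ G)) (fa : ∀ R : ℕ, {n | |a n| ≤ R}.Finite)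
    (fb : ∀ R : ℕ, {n | |b n| ≤ R}.Finite) :
    ∃ (Φ : X ρ ≃ₜ X σ) (F : Set ℤ), F.Finite ∧ ∀ x, A a x ∩ A b (Φ x) ⊆ F := by
  haveI := ne ha
  haveI := ne hb
  obtain ⟨F1, f1, K1, -, k1, l1⟩ := propD a ha fa univ isOpen_univ univ_nonempty
  obtain ⟨F2, f2, K2, -, k2, l2⟩ := propD b hb fb univ isOpen_univ univ_nonempty
  obtain ⟨Φ, h⟩ := bf (fun (x : X ρ) (y : X σ) => A a x ∩ A b y ⊆ F1 ∪ F2)
    (fun U u1 u2 => by
      obtain ⟨F, f, K, k0, k, l⟩ := propD a ha fa U u1 u2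
      refine ⟨K, k0, k, fun y0 hy => ?_⟩
      filter_upwards [f.eventually_all.2 fun n _ => A_ev b n y0] with y e x hx n hn
      exact hy x hx ⟨hn.1, (e n (l x hx hn.1)).1 hn.2⟩)
    (fun U u1 u2 => by
      obtain ⟨F, f, K, k0, k, l⟩ := propD b hb fb U u1 u2
      refine ⟨K, k0, k, fun y0 hy => ?_⟩
      filter_upwards [f.eventually_all.2 fun n _ => A_ev a n y0] with y e x hx n hn
      exact hy x hx ⟨(e n (l x hx hn.2)).1 hn.1, hn.2⟩)
    ⟨isClopen_univ, isClopen_univ, Or.inr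
      ⟨⟨K1, subset_univ _, k1, fun x hx y _ n hn => Or.inl (l1 x hx hn.1)⟩,
        ⟨K2, subset_univ _, k2, fun x hx y _ n hn => Or.inr (l2 x hx hn.2)⟩⟩⟩
    (fun x => isClosed_iff_frequently.2 fun y hy n hn => by
      obtain ⟨z, z1, z2⟩ := (hy.and_eventually (A_ev b n y)).exists
      exact z1 ⟨hn.1, z2.2 hn.2⟩)
  exact ⟨Φ, _, f1.union f2, h⟩

lemma conj {Y Z : Type} [TopologicalSpace Y] [TopologicalSpace Z] (Φ : Y ≃ₜ Z) (S : Z ≃ₜ Z)
    (n : ℤ) (y : Y) : Φ (((Φ.trans (S.trans Φ.symm)) ^ n) y) = (S ^ n) (Φ y) := by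
  induction n using Int.induction_on generalizing y with
  | zero => rfl
  | succ n ih =>
    rw [zpow_add_one, Homeomorph.mul_apply, ih, zpow_add_one, Homeomorph.mul_apply]
    simp
  | pred n ih =>
    rw [zpow_sub_one, Homeomorph.mul_apply, ih, zpow_sub_one, Homeomorph.mul_apply]
    congr 1
    exact Φ.apply_symm_apply _

lemma ret {ρ : ℕ → ℕ} (a : ℤ → ℤ) (n : ℕ → ℤ) (x : X ρ)
    (h : Tendsto (fun i => (T ρ ^ a (n i)) x) atTop (𝓝 x)) : ∀ᶠ i in atTop, n i ∈ A a x := by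
  filter_upwards [(tendsto_subtype_rng.1 h).eventually (ev1 x.1 0)] with i hi
  rw [T_pow] at hi
  simpa [act, sh, A] using hi

end Pool.Agent.H.MP_c19a8f_an
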